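import Pool.Agent.Helper97.TW.AN2
import Pool.Agent.Helper37.TW3.Defs

/-!
# Project TW3, block W4: the set of primes `Q₁` of two rational branch points
-/

set_option autoImplicit false
set_option linter.unusedSectionVars false

namespace Pool.Agent.TW3

open VC Filter Topology NumberField IsDedekindDomain IntermediateField Pool.Agent.SC Pool.Agent.L
open Pool.Agent.M
open Pool.Agent.HG (Pr nm IsOdd Ctx Gd)
open Pool.Agent.TW (GlT)

section lift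

variable {k E : Type} [Field k] [Field E] [Algebra k E]

/-- the restriction of a product -/
theorem res_mul59 {L : IntermediateField k E} {σ σ' : E ≃ₐ[k] E} {τ τ' : L ≃ₐ[k] L}
    (h : ∀ x : L, σ x = τ x) (h' : ∀ x : L, σ' x = τ' x) (x : L) :
    (σ * σ') x = (τ * τ') x := by
  rw [AlgEquiv.mul_apply, AlgEquiv.mul_apply, h', h]

/-- the restriction of the inverse -/
theorem res_inv59 {L : IntermediateField k E} {σ : E ≃ₐ[k] E} {τ : L ≃ₐ[k] L}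
    (h : ∀ x : L, σ x = τ x) (x : L) : σ⁻¹ x = τ⁻¹ x := by
  have h3 := h (τ⁻¹ x)
  have h4 : τ (τ⁻¹ x) = x := τ.apply_symm_apply x
  rw [h4] at h3
  rw [← h3]
  exact σ.symm_apply_apply _

/-- the restriction of a power -/
theorem res_pow59 {L : IntermediateField k E} {σ : E ≃ₐ[k] E} {τ : L ≃ₐ[k] L}
    (h : ∀ x : L, σ x = τ x) (j : ℕ) (x : L) : (σ ^ j) x = (τ ^ j) x := by
  induction j generalizing x with
  | zero => rfl
  | succ j ih => rw [pow_succ, AlgEquiv.mul_apply, h, ih, pow_succ, AlgEquiv.mul_apply]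

theorem res_zpow59 {L : IntermediateField k E} {σ : E ≃ₐ[k] E} {τ : L ≃ₐ[k] L}
    (h : ∀ x : L, σ x = τ x) (n : ℤ) (x : L) : (σ ^ n) x = (τ ^ n) x := by
  rcases Int.eq_nat_or_neg n with ⟨j, rfl | rfl⟩
  · rw [zpow_natCast, zpow_natCast]
    exact res_pow59 h j x
  · rw [zpow_neg, zpow_natCast, ← inv_pow, zpow_neg, zpow_natCast, ← inv_pow]
    exact res_pow59 (res_inv59 h) j x

/-- a power of an element which fixes `x` fixes `x` -/
theorem zpow_fix59 {F : Type} [Field F] [Algebra k F] {σ : F ≃ₐ[k] F} {x : F} (h : σ x = x)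
    (n : ℤ) : (σ ^ n) x = x := by
  have h1 : σ ∈ MulAction.stabilizer (F ≃ₐ[k] F) x := h
  exact (MulAction.stabilizer (F ≃ₐ[k] F) x).zpow_mem h1 n

/-- a power of an element which moves `d` to `- d` -/
theorem zpow_neg59 {F : Type} [Field F] [Algebra k F] {σ : F ≃ₐ[k] F} {d : F} (h : σ d = -d)
    (n : ℤ) : (σ ^ n) d = d ∨ (σ ^ n) d = -d := by
  have h1 : σ⁻¹ d = -d := by
    have h2 : σ⁻¹ (σ d) = d := σ.symm_apply_apply d
    rw [h, map_neg] at h2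
    exact neg_eq_iff_eq_neg.1 h2
  have h2 : ∀ (τ : F ≃ₐ[k] F), τ d = -d → ∀ j : ℕ, (τ ^ j) d = d ∨ (τ ^ j) d = -d := by
    intro τ hτ j
    induction j with
    | zero => exact Or.inl rfl
    | succ j ih =>
      rw [pow_succ, AlgEquiv.mul_apply, hτ, map_neg]
      rcases ih with h3 | h3
      · right
        rw [h3]
      · left
        rw [h3, neg_neg]
  rcases Int.eq_nat_or_neg n with ⟨j, rfl | rfl⟩
  · rw [zpow_natCast]
    exact h2 σ h j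
  · rw [zpow_neg, zpow_natCast, ← inv_pow]
    exact h2 σ⁻¹ h1 j

end lift

open scoped Classical in
/-- **The set of primes `Q₁`**: it has a positive density, and the Frobenius elements at its primes
fix two branch points `b₁`, `b₂` and move `d`, for a triple of `T`. -/
theorem exists_Q59 (hW3 : StmtW3) {k K0 E U : Type} [Field k] [NumberField k] [Field K0] [Field E]
    [Field U] [Algebra k K0]
    [Algebra k E] [Algebra E U] [Algebra K0 U] [Algebra k U] [IsScalarTower k E U]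
    [IsScalarTower k K0 U] {h : K0} {r : U} (G : Geo k K0 E U h r)
    {c₀ : k} {Φ₀ : (E ≃ₐ[k] E) →* (U ≃+* U)} (hc₀ : c₀ ≠ 0) (hA₀ : Act (K0 := K0) r c₀ Φ₀)
    {f : Polynomial k} {θ : Place E (L0 E K0 (U := U)) → E} (Gl' : GlT h r f θ)
    {a b : Place E (L0 E K0 (U := U))}
    {T : Place E (L0 E K0 (U := U)) → Place E (L0 E K0 (U := U)) → E → Prop}
    (hT : PairC (k := k) h r a b T)
    (B : ℕ → Finset (Pr k)) (hB : ∀ x v, v ∈ B x ↔ nm v ≤ x) :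
    ∃ (δ₁ C₁ : ℝ) (Bad Q : Set (Pr k)), 0 < δ₁ ∧ Bad.Finite ∧
      (∀ v ∉ Bad, ∀ (O : ValuationSubring E) (F : E ≃ₐ[k] E) (p n : ℕ), DecPt v O F p n →
        v ∈ Q → ∃ b₁ b₂ d, T b₁ b₂ d ∧ F (θ b₁) = θ b₁ ∧ F (θ b₂) = θ b₂ ∧ F d = -d) ∧
      ∀ x : ℕ, 2 ≤ x → |∑ v ∈ (B x).filter (· ∈ Q), (1 : ℝ) / nm v -
        δ₁ * Real.log (Real.log x)| ≤ C₁ := by
  have hclE : IsAlgClosed E := G.clE
  have halg : Algebra.IsAlgebraic k E := G.algE
  have hcE : CharZero E := charZero_of_injective_algebraMap (algebraMap k E).injective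
  have hacl : IsAlgClosure k E := ⟨inferInstance, inferInstance⟩
  have hnE : Normal k E := IsAlgClosure.normal k E
  obtain ⟨β₁, β₂, d₀, hT₀, σ₀, hσ₀, hm₀⟩ := hT.ex
  obtain ⟨hm₁, hm₂⟩ := hm₀ c₀ Φ₀ hc₀ hA₀
  -- the field
  let S : Set E := insert d₀ (f.rootSet E)
  have hSf : S.Finite := (Polynomial.rootSet_finite f E).insert d₀
  have hKf : FiniteDimensional k (IntermediateField.adjoin k S) := by
    have : Finite S := hSf.to_subtype
    exact IntermediateField.finiteDimensional_adjoin fun x _ => Algebra.IsIntegral.isIntegral x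
  let L : IntermediateField k E := normalClosure k (IntermediateField.adjoin k S) E
  have hLf : FiniteDimensional k L := normalClosure.is_finiteDimensional k _ E
  have hLn : Normal k L := normalClosure.normal k _ E
  have hLg : IsGalois k L := ⟨⟩
  have hNF : NumberField L := NumberField.of_module_finite k L
  have hSL : ∀ x ∈ S, x ∈ L := fun x hx =>
    (IntermediateField.le_normalClosure _) (IntermediateField.subset_adjoin k S hx)
  have hd₀L : d₀ ∈ L := hSL _ (Set.mem_insert _ _)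
  have hθL : ∀ b, BPl h b → θ b ∈ L := fun b hb => hSL _ (Set.mem_insert_of_mem _ (by
    rw [Polynomial.mem_rootSet]
    exact ⟨Gl'.sep.ne_zero, Gl'.root b hb⟩))
  -- the set of the Galois group
  let C : Set (L ≃ₐ[k] L) := {τ | ∃ σ : E ≃ₐ[k] E, (∀ x : L, σ x = τ x) ∧ ∃ b₁ b₂ d, T b₁ b₂ d ∧
    d ∈ L ∧ σ (θ b₁) = θ b₁ ∧ σ (θ b₂) = θ b₂ ∧ σ d = -d}
  obtain ⟨C₀, Bad, Q, hBad, hQ, hsum⟩ := hW3 k L C (by
    rintro τ ⟨σ, hσ, b₁, b₂, d, hTd, hdL, h1, h2, h3⟩ τ' hττ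
    have h4 : τ' ∈ Subgroup.zpowers τ := by
      rw [← hττ]
      exact Subgroup.mem_zpowers τ'
    obtain ⟨n, rfl⟩ := Subgroup.mem_zpowers_iff.1 h4
    refine ⟨σ ^ n, res_zpow59 hσ n, b₁, b₂, d, hTd, hdL, zpow_fix59 h1 n, zpow_fix59 h2 n, ?_⟩
    rcases zpow_neg59 h3 n with h5 | h5
    · exfalso
      have h6 : (τ ^ n) ⟨d, hdL⟩ = ⟨d, hdL⟩ := by
        apply Subtype.ext
        rw [← res_zpow59 hσ n ⟨d, hdL⟩]
        exact h5
      have h7 : τ ∈ Subgroup.zpowers (τ ^ n) := by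
        rw [hττ]
        exact Subgroup.mem_zpowers τ
      obtain ⟨j, hj⟩ := Subgroup.mem_zpowers_iff.1 h7
      have h8 : τ ⟨d, hdL⟩ = ⟨d, hdL⟩ := by
        conv_lhs => rw [← hj]
        exact zpow_fix59 h6 j
      have h9 : σ d = d := by
        have := hσ ⟨d, hdL⟩
        rw [h8] at this
        exact this
      rw [h3] at h9
      exact (hT.br b₁ b₂ d hTd).1 (self_eq_neg.1 h9.symm)
    · exact h5) (by
    rintro τ ⟨σ, hσ, b₁, b₂, d, hTd, hdL, h1, h2, h3⟩ g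
    obtain ⟨g', hg'⟩ := exists_lift13 (E := E) L.val g
    have hg1 : ∀ x : L, g' x = g x := hg'
    obtain ⟨-, hb₁, hb₂, -⟩ := hT.br b₁ b₂ d hTd
    have hroot : ∀ b, BPl h b → ∃ b', BPl h b' ∧ θ b' = g' (θ b) := fun b hb => Gl'.ex _ (by
      have h4 : Polynomial.aeval ((g' : E →ₐ[k] E) (θ b)) f = 0 := by
        rw [Polynomial.aeval_algHom_apply, Gl'.root b hb, map_zero]
      exact h4)
    obtain ⟨b₁', hb₁', he₁⟩ := hroot b₁ hb₁
    obtain ⟨b₂', hb₂', he₂⟩ := hroot b₂ hb₂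
    refine ⟨g' * σ * g'⁻¹, res_mul59 (res_mul59 hg1 hσ) (res_inv59 hg1), b₁', b₂', g' d,
      hT.conj c₀ Φ₀ hc₀ hA₀ g' b₁ b₂ b₁' b₂' d hTd
        ((Gl'.act c₀ Φ₀ hc₀ hA₀ g' b₁ b₁' hb₁ hb₁').2 he₁.symm)
        ((Gl'.act c₀ Φ₀ hc₀ hA₀ g' b₂ b₂' hb₂ hb₂').2 he₂.symm), ?_, ?_, ?_, ?_⟩
    · have h4 := hg1 ⟨d, hdL⟩
      have h5 : g' d = ((g ⟨d, hdL⟩ : L) : E) := h4
      rw [h5]
      exact (g ⟨d, hdL⟩).2
    · rw [he₁, AlgEquiv.mul_apply, AlgEquiv.mul_apply]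
      have h4 : g'⁻¹ (g' (θ b₁)) = θ b₁ := g'.symm_apply_apply _
      rw [h4, h1]
    · rw [he₂, AlgEquiv.mul_apply, AlgEquiv.mul_apply]
      have h4 : g'⁻¹ (g' (θ b₂)) = θ b₂ := g'.symm_apply_apply _
      rw [h4, h2]
    · rw [AlgEquiv.mul_apply, AlgEquiv.mul_apply]
      have h4 : g'⁻¹ (g' d) = d := g'.symm_apply_apply _
      rw [h4, h3, map_neg]) B hB
  have hG0 : (0 : ℝ) < Nat.card (L ≃ₐ[k] L) := by
    have : 0 < Nat.card (L ≃ₐ[k] L) := Nat.card_pos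
    exact_mod_cast this
  have hC0 : (0 : ℝ) < Nat.card C := by
    have hne : Nonempty C := by
      obtain ⟨τ₀, hτ₀⟩ := exists_res13 L.val σ₀
      obtain ⟨-, hb₁, hb₂, -⟩ := hT.br _ _ _ hT₀
      exact ⟨⟨τ₀, σ₀, hτ₀, β₁, β₂, d₀, hT₀, hd₀L,
        (Gl'.act c₀ Φ₀ hc₀ hA₀ σ₀ _ _ hb₁ hb₁).1 hm₁,
        (Gl'.act c₀ Φ₀ hc₀ hA₀ σ₀ _ _ hb₂ hb₂).1 hm₂, hσ₀⟩⟩
    have : 0 < Nat.card C := Nat.card_pos
    exact_mod_cast this
  refine ⟨_, C₀, Bad, Q, div_pos hC0 hG0, hBad, ?_, hsum⟩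
  intro v hv O F p n hD hvQ
  obtain ⟨P, hP, hPv⟩ := exists_below13 L.val hD
  obtain ⟨τ, hτ⟩ := exists_res13 L.val F
  obtain ⟨σ, hσ, b₁, b₂, d, hTd, hdL, h1, h2, h3⟩ :=
    (hQ v hv P τ hPv (frob_below13 hD hP hτ)).1 hvQ
  obtain ⟨-, hb₁, hb₂, -⟩ := hT.br b₁ b₂ d hTd
  have hFσ : ∀ x ∈ L, F x = σ x := by
    intro x hx
    have h4 := hτ ⟨x, hx⟩
    have h5 := hσ ⟨x, hx⟩
    exact h4.trans h5.symm
  refine ⟨b₁, b₂, d, hTd, ?_, ?_, ?_⟩
  · rw [hFσ _ (hθL b₁ hb₁), h1]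
  · rw [hFσ _ (hθL b₂ hb₂), h2]
  · rw [hFσ _ hdL, h3]

/-- `NN 2` lies in `NN (2 ^ m)` -/
theorem NN_le59 {E K0 U : Type} [Field E] [Field K0] [Field U] [Algebra E U] [Algebra K0 U]
    [IsAlgClosed E] (ff : IsFunctionField E (L0 E K0 (U := U))) {m : ℕ} (hm : 1 ≤ m) :
    NN E K0 2 (U := U) ≤ NN E K0 (2 ^ m) (U := U) := by
  have h3 : NN E K0 2 (U := U) = IntermediateField.adjoin E
    (Set.range (algebraMap K0 U) ∪ {w | UR E K0 2 w}) := rfl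
  rw [h3, IntermediateField.adjoin_le_iff]
  rintro y (⟨c, rfl⟩ | hy)
  · exact L0_le99 (IntermediateField.subset_adjoin _ _ ⟨c, rfl⟩)
  · exact mem_NN99 (UR_two99 ff hm hy)

/-- the restriction of a fixed place is fixed -/
theorem moves_over59 {E U : Type} [Field E] [Field U] [Algebra E U]
    {N N' : IntermediateField E U} {φ : U ≃+* U} {P : Place E N} {Q : Place E N'} (hle : N ≤ N')
    (hQ : OverPl P Q) (h : Moves φ N' Q Q) : Moves φ N P P := by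
  intro x hx hx'
  rw [hQ x hx (hle hx), hQ (φ x) hx' (hle hx')]
  exact h x (hle hx) (hle hx')

/-- **The condition of `StmtG3w` at the primes of `Q₁`**: the signs of the Frobenius element at the
options over `a` and over `b` are different. -/
theorem cond59 {k K0 E U L : Type} [Field k] [NumberField k] [Field K0] [Field E] [Field U]
    [Algebra k K0] [Algebra k E] [Algebra E U] [Algebra K0 U] [Algebra k U]
    [IsScalarTower k E U] [IsScalarTower k K0 U] [Field L] [NumberField L] [Algebra k L]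
    [IsGalois k L] {h : K0} {r : U} (G : Geo k K0 E U h r) {f : Polynomial k}
    {θ : Place E (L0 E K0 (U := U)) → E} (Gl' : GlT h r f θ) {c : k}
    {Φ : (E ≃ₐ[k] E) →* (U ≃+* U)} (hc : c ≠ 0) (hA : Act (K0 := K0) r c Φ) {X : Ctx k L f}
    {ι : L →ₐ[k] E} {θL : Place E (L0 E K0 (U := U)) → L} {bt : L → Place E (L0 E K0 (U := U))}
    (hGl : Gl h Φ X ι θL bt) (hθL : ∀ b, BPl h b → ι (θL b) = θ b)
    {zz : Place E (L0 E K0 (U := U)) → Place E (L0 E K0 (U := U)) → U}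
    (hzz : ∀ b b', BPl h b → BPl h b' → b ≠ b' → IsZ b b' (zz b b'))
    {a b : Place E (L0 E K0 (U := U))} (ha : BPl h a) (hb : BPl h b)
    {T : Place E (L0 E K0 (U := U)) → Place E (L0 E K0 (U := U)) → E → Prop}
    (hT : PairC (k := k) h r a b T) {F : E ≃ₐ[k] E} {Fv : L ≃ₐ[k] L}
    (hF : ∀ z, F (ι z) = ι (Fv z)) {m : ℕ} (hm : 1 ≤ m)
    (hex : ∃ b₁ b₂ d, T b₁ b₂ d ∧ F (θ b₁) = θ b₁ ∧ F (θ b₂) = θ b₂ ∧ F d = -d) :
    ∃ ρ ∈ X.Ω, ∃ ρ' ∈ X.Ω, Fv ρ = ρ ∧ Fv ρ' = ρ' ∧ ρ ≠ ρ' ∧ ρ ≠ θL a ∧ ρ ≠ θL b ∧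
      ρ' ≠ θL a ∧ ρ' ≠ θL b ∧ ∀ P P' : Place E (NN E K0 2 (U := U)), OverPl a P →
      (∃ Q : Place E (NN E K0 (2 ^ m) (U := U)), OverPl P Q ∧ Moves (Φ F) _ Q Q) →
      OverPl b P' →
      (∃ Q : Place E (NN E K0 (2 ^ m) (U := U)), OverPl P' Q ∧ Moves (Φ F) _ Q Q) →
      sgn (Φ F ^ 1) P (zz (bt ρ) (bt ρ')) ≠ sgn (Φ F ^ 1) P' (zz (bt ρ) (bt ρ')) := by
  have hclE : IsAlgClosed E := G.clE
  obtain ⟨b₁, b₂, d, hTd, h1, h2, h3⟩ := hex
  obtain ⟨hd, hb₁, hb₂, h12, h1a, h1b, h2a, h2b⟩ := hT.br b₁ b₂ d hTd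
  have hinj : ∀ {x y : Place E (L0 E K0 (U := U))}, BPl h x → BPl h y → x ≠ y → θL x ≠ θL y := by
    intro x y hx hy hne h4
    apply hne
    rw [← hGl.bt_θ x hx, h4, hGl.bt_θ y hy]
  have hfix : ∀ {x : Place E (L0 E K0 (U := U))}, BPl h x → F (θ x) = θ x →
      Fv (θL x) = θL x := by
    intro x hx h4
    refine ι.injective (?_ : ι (Fv (θL x)) = ι (θL x))
    rw [← hF, hθL x hx, h4]
  refine ⟨θL b₁, hGl.mem b₁ hb₁, θL b₂, hGl.mem b₂ hb₂, hfix hb₁ h1, hfix hb₂ h2,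
    hinj hb₁ hb₂ h12, hinj hb₁ ha h1a, hinj hb₁ hb h1b, hinj hb₂ ha h2a, hinj hb₂ hb h2b, ?_⟩
  rintro P P' hP ⟨Q, hQ, hMQ⟩ hP' ⟨Q', hQ', hMQ'⟩
  rw [hGl.bt_θ b₁ hb₁, hGl.bt_θ b₂ hb₂, pow_one]
  have hle : NN E K0 2 (U := U) ≤ NN E K0 (2 ^ m) (U := U) := NN_le59 G.ff hm
  exact hT.sg c Φ hc hA F b₁ b₂ d hTd ((Gl'.act c Φ hc hA F b₁ b₁ hb₁ hb₁).2 h1)
    ((Gl'.act c Φ hc hA F b₂ b₂ hb₂ hb₂).2 h2) h3 _ (hzz b₁ b₂ hb₁ hb₂ h12) P P' hP hP'
    (moves_over59 hle hQ hMQ) (moves_over59 hle hQ' hMQ')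

end Pool.Agent.TW3
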